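import Mathlib

/-!
# Real projective space as a closed smooth manifold

`RPn n` is the set of the matrices `(v_i v_j)`, `v` a unit vector of `ℝ^(n+1)`.
-/

namespace Pool.Agent.Helper85.RP

open Filter Topology Set
open scoped Manifold ContDiff

noncomputable section

/-- the ambient Euclidean space -/
abbrev V (n : ℕ) := EuclideanSpace ℝ (Fin (n + 1))

/-- the matrices -/
abbrev Mat (n : ℕ) := Fin (n + 1) → Fin (n + 1) → ℝ

/-- Real projective space: the matrices `v_i v_j` with `v` a unit vector. -/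
def RPn (n : ℕ) : Type := {P : Mat n // ∃ v : V n, ‖v‖ = 1 ∧ ∀ i j, P i j = v i * v j}

variable {n : ℕ}

instance : TopologicalSpace (RPn n) := inferInstanceAs (TopologicalSpace {P : Mat n // _})
instance : T2Space (RPn n) := inferInstanceAs (T2Space {P : Mat n // _})

/-- the matrix -/
def ι (P : RPn n) : Mat n := P.1

lemma ι_injective : Function.Injective (ι : RPn n → Mat n) := Subtype.val_injective
lemma ι_continuous : Continuous (ι : RPn n → Mat n) := continuous_subtype_val
lemma ι_inducing : IsInducing (ι : RPn n → Mat n) := IsInducing.subtypeVal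

/-- replaces the zero vector by a basis vector -/
def nz (v : V n) : V n := if v = 0 then EuclideanSpace.single 0 1 else v

lemma nz_ne (v : V n) : nz v ≠ 0 := by
  unfold nz
  split_ifs with h
  · intro h0
    have := congrArg (fun w : V n => w 0) h0
    simp at this
  · exact h

/-- the class of a nonzero vector -/
def ph (v : V n) : RPn n :=
  ⟨fun i j => nz v i * nz v j / ‖nz v‖ ^ 2, ‖nz v‖⁻¹ • nz v, by
    rw [norm_smul, norm_inv, norm_norm]
    exact inv_mul_cancel₀ (norm_ne_zero_iff.2 (nz_ne v)), fun i j => by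
      simp only [PiLp.smul_apply, smul_eq_mul]
      field_simp⟩

lemma ph_apply {v : V n} (hv : v ≠ 0) (i j : Fin (n + 1)) : ι (ph v) i j = v i * v j / ‖v‖ ^ 2 := by
  have : nz v = v := if_neg hv
  change nz v i * nz v j / ‖nz v‖ ^ 2 = _
  rw [this]

lemma ph_unit {v : V n} (hv : ‖v‖ = 1) (i j : Fin (n + 1)) : ι (ph v) i j = v i * v j := by
  rw [ph_apply (by rintro rfl; simp at hv), hv]; simp

lemma exists_unit (P : RPn n) : ∃ v : V n, ‖v‖ = 1 ∧ ph v = P := by
  obtain ⟨v, hv, h⟩ := P.2
  refine ⟨v, hv, ι_injective ?_⟩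
  funext i j
  rw [ph_unit hv]
  exact (h i j).symm

lemma ph_smul {v : V n} (hv : v ≠ 0) {c : ℝ} (hc : c ≠ 0) : ph (c • v) = ph v := by
  apply ι_injective
  funext i j
  rw [ph_apply hv, ph_apply (smul_ne_zero hc hv), norm_smul, mul_pow, Real.norm_eq_abs, sq_abs]
  simp only [PiLp.smul_apply, smul_eq_mul]
  have : ‖v‖ ≠ 0 := norm_ne_zero_iff.2 hv
  field_simp

/-- matrix times vector -/
def act (P : Mat n) (e : V n) : V n := WithLp.toLp 2 (fun i => ∑ j, P i j * e j)

lemma act_apply (P : Mat n) (e : V n) (i : Fin (n + 1)) : act P e i = ∑ j, P i j * e j := rfl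

lemma act_ph {w : V n} (hw : w ≠ 0) (e : V n) :
    act (ι (ph w)) e = (inner ℝ w e / ‖w‖ ^ 2) • w := by
  ext i
  rw [act_apply]
  simp only [PiLp.smul_apply, smul_eq_mul]
  simp_rw [ph_apply hw]
  rw [PiLp.inner_apply, div_mul_eq_mul_div, Finset.sum_mul, Finset.sum_div]
  refine Finset.sum_congr rfl fun j _ => ?_
  simp only [RCLike.inner_apply, conj_trivial]
  ring

lemma inner_self_ne {w : V n} (hw : w ≠ 0) : inner ℝ w w ≠ 0 := by
  rw [real_inner_self_eq_norm_sq]
  exact pow_ne_zero _ (norm_ne_zero_iff.2 hw)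

lemma ph_eq_iff {v w : V n} (hv : ‖v‖ = 1) (hw : ‖w‖ = 1) : ph v = ph w ↔ v = w ∨ v = -w := by
  have hv0 : v ≠ 0 := by rintro rfl; simp at hv
  have hw0 : w ≠ 0 := by rintro rfl; simp at hw
  constructor
  · intro h
    have h1 : act (ι (ph v)) v = act (ι (ph w)) v := by rw [h]
    rw [act_ph hv0, act_ph hw0, hv, hw, real_inner_self_eq_norm_sq, hv] at h1
    simp only [one_pow, div_one, one_smul] at h1
    have h2 : |inner ℝ w v| = 1 := by
      have := congrArg norm h1
      rw [norm_smul, hv, hw, mul_one, Real.norm_eq_abs] at this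
      exact this.symm
    rcases abs_eq (zero_le_one) |>.1 h2 with h3 | h3
    · left; rw [h1, h3, one_smul]
    · right; rw [h1, h3, neg_smul, one_smul]
  · rintro (rfl | rfl)
    · rfl
    · have := ph_smul hw0 (c := -1) (by norm_num)
      rwa [neg_smul, one_smul] at this

lemma continuousOn_ph : ContinuousOn (ph : V n → RPn n) {v | v ≠ 0} := by
  rw [ι_inducing.continuousOn_iff]
  have : ContinuousOn (fun v : V n => fun i j => v i * v j / ‖v‖ ^ 2 : V n → Mat n) {v | v ≠ 0} := by
    refine continuousOn_pi.2 fun i => continuousOn_pi.2 fun j => ?_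
    refine ContinuousOn.div (by fun_prop) (by fun_prop) fun v hv => ?_
    exact pow_ne_zero _ (norm_ne_zero_iff.2 hv)
  refine this.congr fun v hv => ?_
  funext i j
  exact ph_apply hv i j

instance : CompactSpace (RPn n) := by
  have h1 : IsCompact (ph '' (Metric.sphere (0 : V n) 1)) := by
    refine (isCompact_sphere _ _).image_of_continuousOn (continuousOn_ph.mono fun v hv => ?_)
    exact ne_zero_of_mem_unit_sphere (⟨v, hv⟩ : Metric.sphere (0 : V n) 1)
  have h2 : ph '' (Metric.sphere (0 : V n) 1) = univ := by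
    rw [eq_univ_iff_forall]
    intro P
    obtain ⟨v, hv, rfl⟩ := exists_unit P
    exact ⟨v, by simpa using hv, rfl⟩
  rw [h2] at h1
  exact ⟨h1⟩

lemma rank_V : 1 < n + 1 → 1 < Module.rank ℝ (V n) := by
  intro h
  rw [rank_eq_card_basis (EuclideanSpace.basisFun (Fin (n + 1)) ℝ).toBasis]
  simp only [Fintype.card_fin]
  exact_mod_cast h

lemma connectedSpace_RP (hn : 0 < n) : ConnectedSpace (RPn n) := by
  have h1 : IsConnected (ph '' (Metric.sphere (0 : V n) 1)) := by
    refine (isConnected_sphere (rank_V (by omega)) 0 zero_le_one).image _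
      (continuousOn_ph.mono fun v hv => ?_)
    exact ne_zero_of_mem_unit_sphere (⟨v, hv⟩ : Metric.sphere (0 : V n) 1)
  have h2 : ph '' (Metric.sphere (0 : V n) 1) = univ := by
    rw [eq_univ_iff_forall]
    intro P
    obtain ⟨v, hv, rfl⟩ := exists_unit P
    exact ⟨v, by simpa using hv, rfl⟩
  rw [h2] at h1
  exact connectedSpace_iff_univ.2 h1

/-! ### charts -/

/-- insert the coordinate 1 at position `i` -/
def ins (i : Fin (n + 1)) (y : EuclideanSpace ℝ (Fin n)) : V n :=
  WithLp.toLp 2 (Fin.insertNth i (1 : ℝ) (fun j => y j))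

lemma ins_same (i : Fin (n + 1)) (y : EuclideanSpace ℝ (Fin n)) : ins i y i = 1 := by
  change Fin.insertNth (α := fun _ => ℝ) i (1 : ℝ) (fun j => y j) i = 1
  simp

lemma ins_succAbove (i : Fin (n + 1)) (y : EuclideanSpace ℝ (Fin n)) (j : Fin n) :
    ins i y (i.succAbove j) = y j := by
  change Fin.insertNth (α := fun _ => ℝ) i (1 : ℝ) (fun j => y j) (i.succAbove j) = y j
  simp

lemma ins_ne (i : Fin (n + 1)) (y : EuclideanSpace ℝ (Fin n)) : ins i y ≠ 0 := by
  intro h
  have := congrArg (fun w : V n => w i) h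
  simp only [ins_same] at this
  simp at this

lemma contDiff_ins {m : ℕ∞ω} (i : Fin (n + 1)) : ContDiff ℝ m (ins i) := by
  rw [contDiff_euclidean]
  intro a
  rcases eq_or_ne a i with rfl | h
  · simp only [ins_same]
    exact contDiff_const
  · obtain ⟨j, rfl⟩ := Fin.exists_succAbove_eq h
    simp only [ins_succAbove]
    fun_prop

/-- chart map -/
def co (i : Fin (n + 1)) (P : RPn n) : EuclideanSpace ℝ (Fin n) :=
  WithLp.toLp 2 (fun j => ι P (i.succAbove j) i / ι P i i)

lemma co_apply (i : Fin (n + 1)) (P : RPn n) (j : Fin n) :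
    co i P j = ι P (i.succAbove j) i / ι P i i := rfl

lemma co_ph {v : V n} (i : Fin (n + 1)) (hv : v i ≠ 0) (j : Fin n) :
    co i (ph v) j = v (i.succAbove j) / v i := by
  have hv0 : v ≠ 0 := by rintro rfl; exact hv rfl
  have hn : ‖v‖ ≠ 0 := norm_ne_zero_iff.2 hv0
  rw [co_apply, ph_apply hv0, ph_apply hv0]
  field_simp

lemma ι_ii_iff {v : V n} (hv0 : v ≠ 0) (i : Fin (n + 1)) : ι (ph v) i i ≠ 0 ↔ v i ≠ 0 := by
  have hn : ‖v‖ ≠ 0 := norm_ne_zero_iff.2 hv0
  rw [ph_apply hv0]
  constructor
  · intro h h1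
    apply h
    rw [h1]; simp
  · intro h
    exact div_ne_zero (mul_ne_zero h h) (pow_ne_zero _ hn)

lemma ins_co {v : V n} (i : Fin (n + 1)) (hv : v i ≠ 0) : ins i (co i (ph v)) = (v i)⁻¹ • v := by
  ext a
  simp only [PiLp.smul_apply, smul_eq_mul]
  rcases eq_or_ne a i with rfl | h
  · rw [ins_same, inv_mul_cancel₀ hv]
  · obtain ⟨j, rfl⟩ := Fin.exists_succAbove_eq h
    rw [ins_succAbove, co_ph i hv]
    field_simp

lemma contDiff_ph_ins {m : ℕ∞ω} (i a b : Fin (n + 1)) :
    ContDiff ℝ m fun y => ι (ph (ins i y)) a b := by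
  have h : (fun y => ι (ph (ins i y)) a b) = fun y => ins i y a * ins i y b / ‖ins i y‖ ^ 2 := by
    funext y
    exact ph_apply (ins_ne i y) a b
  rw [h]
  have h1 : ∀ a, ContDiff ℝ m fun y => ins i y a := fun a => contDiff_euclidean.1 (contDiff_ins i) a
  refine ContDiff.div ((h1 a).mul (h1 b)) ((contDiff_ins i).norm_sq ℝ) fun y => ?_
  exact pow_ne_zero _ (norm_ne_zero_iff.2 (ins_ne i y))

/-- the standard charts -/
def chart (i : Fin (n + 1)) : OpenPartialHomeomorph (RPn n) (EuclideanSpace ℝ (Fin n)) where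
  toFun := co i
  invFun y := ph (ins i y)
  source := {P | ι P i i ≠ 0}
  target := univ
  map_source' _ _ := mem_univ _
  map_target' y _ := by
    change ι (ph (ins i y)) i i ≠ 0
    rw [ι_ii_iff (ins_ne i y), ins_same]
    exact one_ne_zero
  left_inv' P hP := by
    obtain ⟨v, hv, rfl⟩ := exists_unit P
    have hv0 : v ≠ 0 := by rintro rfl; simp at hv
    have hvi : v i ≠ 0 := (ι_ii_iff hv0 i).1 hP
    rw [ins_co i hvi, ph_smul hv0 (inv_ne_zero hvi)]
  right_inv' y _ := by
    ext j
    rw [co_ph i (by rw [ins_same]; exact one_ne_zero), ins_same, ins_succAbove, div_one]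
  open_source := by
    have : Continuous fun P : RPn n => ι P i i :=
      (continuous_apply i).comp ((continuous_apply i).comp ι_continuous)
    exact isOpen_ne.preimage this
  open_target := isOpen_univ
  continuousOn_toFun := by
    have h : ∀ a b, Continuous fun P : RPn n => ι P a b := fun a b =>
      (continuous_apply b).comp ((continuous_apply a).comp ι_continuous)
    have h1 : ContinuousOn (fun P : RPn n => fun j : Fin n => ι P (i.succAbove j) i / ι P i i)
        {P | ι P i i ≠ 0} :=
      continuousOn_pi.2 fun j => (h _ _).continuousOn.div (h _ _).continuousOn fun P hP => hP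
    exact (PiLp.continuous_toLp 2 _).comp_continuousOn h1
  continuousOn_invFun := by
    rw [ι_inducing.continuousOn_iff]
    refine continuousOn_pi.2 fun a => continuousOn_pi.2 fun b => ?_
    exact (contDiff_ph_ins (m := 0) i a b).continuous.continuousOn

lemma exists_chart (P : RPn n) : ∃ i, ι P i i ≠ 0 := by
  obtain ⟨v, hv, rfl⟩ := exists_unit P
  have hv0 : v ≠ 0 := by rintro rfl; simp at hv
  by_contra hcon
  push Not at hcon
  apply hv0
  ext i
  by_contra h
  exact (ι_ii_iff hv0 i).2 h (hcon i)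

/-- the index of the preferred chart -/
def ix (P : RPn n) : Fin (n + 1) := (exists_chart P).choose

lemma ix_spec (P : RPn n) : ι P (ix P) (ix P) ≠ 0 := (exists_chart P).choose_spec

instance : ChartedSpace (EuclideanSpace ℝ (Fin n)) (RPn n) where
  atlas := range chart
  chartAt P := chart (ix P)
  mem_chart_source P := ix_spec P
  chart_mem_atlas P := ⟨_, rfl⟩

lemma chartAt_eq (P : RPn n) : chartAt (EuclideanSpace ℝ (Fin n)) P = chart (ix P) := rfl

instance : IsManifold (𝓡 n) ∞ (RPn n) := by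
  refine isManifold_of_contDiffOn (𝓡 n) ∞ (RPn n) ?_
  rintro _ _ ⟨i, rfl⟩ ⟨j, rfl⟩
  have key : ContDiffOn ℝ ∞ (fun y => co j (ph (ins i y)))
      {y | ι (ph (ins i y)) j j ≠ 0} := by
    rw [contDiffOn_euclidean]
    intro a
    simp only [co_apply]
    exact (contDiff_ph_ins i _ _).contDiffOn.div (contDiff_ph_ins i _ _).contDiffOn
      fun y hy => hy
  refine key.congr_mono (fun y _ => rfl) ?_
  intro y hy
  have h1 := hy.1
  simp only [mfld_simps] at h1
  exact h1.2

end

end Pool.Agent.Helper85.RP
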