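import Mathlib
import Pool.Agent.Helper85.RP.Mfd

namespace Pool.Agent.Helper85.RP

open Filter Topology Set
open scoped Manifold ContDiff

noncomputable section

variable {n : ℕ}

/-- the unit sphere -/
abbrev S (n : ℕ) := Metric.sphere (0 : V n) 1

lemma S_ne (v : S n) : (v : V n) ≠ 0 := ne_zero_of_mem_unit_sphere v

lemma S_norm (v : S n) : ‖(v : V n)‖ = 1 := norm_eq_of_mem_sphere v

lemma contMDiff_ι (k : ℕ∞) : ContMDiff (𝓡 n) 𝓘(ℝ, Mat n) k (ι : RPn n → Mat n) := by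
  rw [contMDiff_iff]
  refine ⟨ι_continuous, fun P Q => ?_⟩
  have h : ContDiff ℝ k fun y => ι (ph (ins (ix P) y)) :=
    contDiff_pi.2 fun a => contDiff_pi.2 fun b => contDiff_ph_ins (ix P) a b
  refine h.contDiffOn.congr fun y _ => ?_
  rfl

lemma contMDiffOn_ph (k : ℕ∞) :
    ContMDiffOn 𝓘(ℝ, V n) (𝓡 n) k (ph : V n → RPn n) {v | v ≠ 0} := by
  rw [contMDiffOn_iff]
  refine ⟨continuousOn_ph, fun x P => ?_⟩
  have h : ContDiffOn ℝ k (fun v : V n => (WithLp.toLp 2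
      (fun j => v ((ix P).succAbove j) / v (ix P)) : EuclideanSpace ℝ (Fin n)))
      {v | v (ix P) ≠ 0} := by
    rw [contDiffOn_euclidean]
    intro j
    change ContDiffOn ℝ k (fun v : V n => v ((ix P).succAbove j) / v (ix P)) {v | v (ix P) ≠ 0}
    refine ContDiffOn.div (by fun_prop) (by fun_prop) fun v hv => hv
  have key : ∀ v : V n, v ∈ (extChartAt 𝓘(ℝ, V n) x).target ∩ (extChartAt 𝓘(ℝ, V n) x).symm ⁻¹'
      ({v | v ≠ 0} ∩ ph ⁻¹' (extChartAt (𝓡 n) P).source) → v ≠ 0 ∧ ι (ph v) (ix P) (ix P) ≠ 0 := by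
    intro v hv
    have h0 : v ≠ 0 := hv.2.1
    have h1 := hv.2.2
    rw [mem_preimage, extChartAt_source] at h1
    exact ⟨h0, h1⟩
  refine h.congr_mono (fun v hv => ?_) fun v hv => ?_
  · obtain ⟨h0, h1⟩ := key v hv
    ext j
    exact co_ph (ix P) ((ι_ii_iff h0 _).1 h1) j
  · obtain ⟨h0, h1⟩ := key v hv
    exact (ι_ii_iff h0 _).1 h1

lemma isOpen_nz : IsOpen {v : V n | v ≠ 0} := isOpen_ne

lemma contMDiffAt_ph (k : ℕ∞) {v : V n} (hv : v ≠ 0) :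
    ContMDiffAt 𝓘(ℝ, V n) (𝓡 n) k (ph : V n → RPn n) v :=
  (contMDiffOn_ph k).contMDiffAt (isOpen_nz.mem_nhds hv)

/-- radial projection to the sphere -/
def rad (v : V n) : S n := ⟨‖nz v‖⁻¹ • nz v, by
  rw [mem_sphere_zero_iff_norm, norm_smul, norm_inv, norm_norm]
  exact inv_mul_cancel₀ (norm_ne_zero_iff.2 (nz_ne v))⟩

lemma rad_coe {v : V n} (hv : v ≠ 0) : (rad v : V n) = ‖v‖⁻¹ • v := by
  have : nz v = v := if_neg hv
  change ‖nz v‖⁻¹ • nz v = _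
  rw [this]

lemma rad_self (v : S n) : rad (v : V n) = v := by
  apply Subtype.ext
  rw [rad_coe (S_ne v), S_norm, inv_one, one_smul]

lemma ph_rad {v : V n} (hv : v ≠ 0) : ph (rad v : V n) = ph v := by
  rw [rad_coe hv, ph_smul hv (inv_ne_zero (norm_ne_zero_iff.2 hv))]

lemma contDiffOn_rad (k : ℕ∞) : ContDiffOn ℝ k (fun v : V n => ‖v‖⁻¹ • v) {v | v ≠ 0} := by
  intro v hv
  refine ContDiffAt.contDiffWithinAt ?_
  exact ((contDiffAt_norm ℝ hv).inv (norm_ne_zero_iff.2 hv)).smul contDiffAt_id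

/-- the complement of the origin -/
def nzO (n : ℕ) : TopologicalSpace.Opens (V n) := ⟨{v | v ≠ 0}, isOpen_nz⟩

lemma contMDiffAt_rad (k : ℕ∞) {v : V n} (hv : v ≠ 0) :
    ContMDiffAt 𝓘(ℝ, V n) (𝓡 n) k (rad : V n → S n) v := by
  have h1 : ContMDiff 𝓘(ℝ, V n) 𝓘(ℝ, V n) k (fun x : nzO n => ‖x.1‖⁻¹ • x.1) := by
    intro x
    have h2 : ContMDiffAt 𝓘(ℝ, V n) 𝓘(ℝ, V n) k (fun v : V n => ‖v‖⁻¹ • v) x.1 :=
      (((contDiffAt_norm ℝ x.2).inv (norm_ne_zero_iff.2 x.2)).smul contDiffAt_id).contMDiffAt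
    exact (contMDiffAt_subtype_iff (f := fun v : V n => ‖v‖⁻¹ • v)).2 h2
  have h3 : ∀ x : nzO n, ‖x.1‖⁻¹ • x.1 ∈ Metric.sphere (0 : V n) 1 := by
    intro x
    rw [mem_sphere_zero_iff_norm, norm_smul, norm_inv, norm_norm]
    exact inv_mul_cancel₀ (norm_ne_zero_iff.2 x.2)
  have hfact : Fact (Module.finrank ℝ (V n) = n + 1) := ⟨finrank_euclideanSpace_fin⟩
  have h4 := h1.codRestrict_sphere (n := n) h3
  have h5 : (Set.codRestrict (fun x : nzO n => ‖x.1‖⁻¹ • x.1) _ h3) =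
      fun x : nzO n => (rad x.1 : S n) := by
    funext x
    apply Subtype.ext
    exact (rad_coe x.2).symm
  rw [h5] at h4
  exact (contMDiffAt_subtype_iff (f := (rad : V n → S n)) (x := (⟨v, hv⟩ : nzO n))).1
    (h4 ⟨v, hv⟩)

end

end Pool.Agent.Helper85.RP
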