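import Mathlib
import Pool.Agent.Helper85.RP.Smooth

namespace Pool.Agent.Helper85.RP

open Filter Topology Set
open scoped Manifold ContDiff

noncomputable section

variable {n : ℕ}

/-- local lift with reference vector `e` -/
def N (Q : V n → RPn n) (e : V n) (v : V n) : V n :=
  (‖v‖ * ‖act (ι (Q v)) e‖⁻¹) • act (ι (Q v)) e

lemma N_eq {Q : V n → RPn n} {e v w : V n} (hw : w ≠ 0) (hQ : Q v = ph w)
    (hwe : 0 < inner ℝ w e) (hn : ‖w‖ = ‖v‖) : N Q e v = w := by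
  have hw' : 0 < ‖w‖ := norm_pos_iff.2 hw
  unfold N
  rw [hQ, act_ph hw, norm_smul, Real.norm_eq_abs, abs_of_pos (by positivity), ← hn, smul_smul]
  have : ‖w‖ * (inner ℝ w e / ‖w‖ ^ 2 * ‖w‖)⁻¹ * (inner ℝ w e / ‖w‖ ^ 2) = 1 := by
    field_simp
  rw [this, one_smul]

lemma N_props {Q : V n → RPn n} {e v : V n} (hv : v ≠ 0) (ha : act (ι (Q v)) e ≠ 0) :
    ph (N Q e v) = Q v ∧ ‖N Q e v‖ = ‖v‖ := by
  obtain ⟨w, hw, hwQ⟩ := exists_unit (Q v)
  have hw0 : w ≠ 0 := by rintro rfl; simp at hw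
  have hv' : 0 < ‖v‖ := norm_pos_iff.2 hv
  have ha' : 0 < ‖act (ι (Q v)) e‖ := norm_pos_iff.2 ha
  constructor
  · unfold N
    rw [ph_smul ha (by positivity), ← hwQ, act_ph hw0]
    rw [← hwQ, act_ph hw0] at ha
    exact ph_smul hw0 (smul_ne_zero_iff.1 ha).1
  · unfold N
    rw [norm_smul, Real.norm_eq_abs, abs_of_pos (by positivity)]
    field_simp

lemma N_neg (Q : V n → RPn n) (e v : V n) : N Q (-e) v = -N Q e v := by
  have h : act (ι (Q v)) (-e) = -act (ι (Q v)) e := by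
    ext i
    simp [act_apply]
  unfold N
  rw [h, norm_neg, smul_neg]

lemma act_contDiffAt {k : ℕ∞} {Q : V n → RPn n} {e v : V n}
    (hQ : ContDiffAt ℝ k (fun x => ι (Q x)) v) :
    ContDiffAt ℝ k (fun x => act (ι (Q x)) e) v := by
  rw [contDiffAt_euclidean]
  intro i
  simp only [act_apply]
  refine ContDiffAt.sum fun j _ => ContDiffAt.mul ?_ contDiffAt_const
  exact (contDiffAt_pi.1 (contDiffAt_pi.1 hQ i)) j

lemma N_contDiffAt {k : ℕ∞} {Q : V n → RPn n} {e v : V n} (hv : v ≠ 0)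
    (ha : act (ι (Q v)) e ≠ 0) (hQ : ContDiffAt ℝ k (fun x => ι (Q x)) v) :
    ContDiffAt ℝ k (N Q e) v := by
  have h := act_contDiffAt (e := e) hQ
  exact ((contDiffAt_norm ℝ hv).mul ((h.norm ℝ ha).inv (norm_ne_zero_iff.2 ha))).smul h

lemma act_unit {Q : V n → RPn n} {v w : V n} (hw : ‖w‖ = 1) (hQ : Q v = ph w) :
    act (ι (Q v)) w = w := by
  have hw0 : w ≠ 0 := by rintro rfl; simp at hw
  rw [hQ, act_ph hw0, real_inner_self_eq_norm_sq, hw]
  simp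

/-- the map of vectors associated with a map of projective space -/
def QQ (f : RPn n → RPn n) : V n → RPn n := fun x => f (ph x)

lemma QQ_contDiffAt {k : ℕ∞} {f : RPn n → RPn n} (hf : ContMDiff (𝓡 n) (𝓡 n) k f) {v : V n}
    (hv : v ≠ 0) : ContDiffAt ℝ k (fun x => ι (QQ f x)) v := by
  have h1 : ContMDiffAt 𝓘(ℝ, V n) 𝓘(ℝ, Mat n) k (fun x => ι (QQ f x)) v :=
    (contMDiff_ι k).contMDiffAt.comp v (hf.contMDiffAt.comp v (contMDiffAt_ph k hv))
  exact contMDiffAt_iff_contDiffAt.1 h1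

/-- the determinant of the local lift -/
def D (f : RPn n → RPn n) (v w : V n) : ℝ := (fderiv ℝ (N (QQ f) w) v).det

section

variable {k : ℕ∞} (hk : 1 ≤ k) {f g : RPn n → RPn n} (hf : ContMDiff (𝓡 n) (𝓡 n) k f)
  (hg : ContMDiff (𝓡 n) (𝓡 n) k g)

include hf in
lemma ev_ok {v w : V n} (hv : v ≠ 0) (ha : act (ι (QQ f v)) w ≠ 0) :
    ∀ᶠ x in 𝓝 v, x ≠ 0 ∧ act (ι (QQ f x)) w ≠ 0 := by
  have h1 : ContinuousAt (fun x => act (ι (QQ f x)) w) v :=
    (act_contDiffAt (QQ_contDiffAt hf hv)).continuousAt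
  have h0 : ∀ᶠ x in 𝓝 v, x ≠ 0 := isOpen_nz.mem_nhds hv
  exact h0.and (h1.eventually_ne ha)

lemma det_comp' (A B : V n →L[ℝ] V n) : (A.comp B).det = A.det * B.det := by
  exact LinearMap.det_comp _ _

include hk hf hg in
lemma D_comp {v w z : V n} (hv : ‖v‖ = 1) (hw : ‖w‖ = 1) (hz : ‖z‖ = 1)
    (h1 : f (ph v) = ph w) (h2 : g (ph w) = ph z) : D (g ∘ f) v z = D g w z * D f v w := by
  have hv0 : v ≠ 0 := by rintro rfl; simp at hv
  have hw0 : w ≠ 0 := by rintro rfl; simp at hw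
  have hz0 : z ≠ 0 := by rintro rfl; simp at hz
  have ha1 : act (ι (QQ f v)) w ≠ 0 := by rw [act_unit (Q := QQ f) hw h1]; exact hw0
  have ha2 : act (ι (QQ g w)) z ≠ 0 := by rw [act_unit (Q := QQ g) hz h2]; exact hz0
  have hNv : N (QQ f) w v = w :=
    N_eq hw0 h1 (by rw [real_inner_self_eq_norm_sq, hw]; norm_num) (by rw [hw, hv])
  have hev : N (QQ (g ∘ f)) z =ᶠ[𝓝 v] N (QQ g) z ∘ N (QQ f) w := by
    filter_upwards [ev_ok hf hv0 ha1] with x hx
    obtain ⟨p1, p2⟩ := N_props (Q := QQ f) hx.1 hx.2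
    have e1 : QQ g (N (QQ f) w x) = QQ (g ∘ f) x := by
      change g (ph (N (QQ f) w x)) = g (f (ph x))
      rw [p1]; rfl
    change N (QQ (g ∘ f)) z x = (‖N (QQ f) w x‖ * ‖act (ι (QQ g (N (QQ f) w x))) z‖⁻¹) •
      act (ι (QQ g (N (QQ f) w x))) z
    rw [e1, p2]
    rfl
  have hk' : (k : ℕ∞ω) ≠ 0 := by
    intro h0
    rw [show k = 0 by exact_mod_cast h0] at hk
    exact absurd hk (by norm_num)
  have d1 : DifferentiableAt ℝ (N (QQ f) w) v :=
    (N_contDiffAt hv0 ha1 (QQ_contDiffAt hf hv0)).differentiableAt hk'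
  have d2 : DifferentiableAt ℝ (N (QQ g) z) (N (QQ f) w v) := by
    rw [hNv]
    exact (N_contDiffAt hw0 ha2 (QQ_contDiffAt hg hw0)).differentiableAt hk'
  unfold D
  rw [hev.fderiv_eq, fderiv_comp v d2 d1, det_comp', hNv]

lemma D_id {v : V n} (hv : ‖v‖ = 1) : D id v v = 1 := by
  have hv0 : v ≠ 0 := by rintro rfl; simp at hv
  have hev : N (QQ id) v =ᶠ[𝓝 v] id := by
    have h1 : ∀ᶠ x in 𝓝 v, 0 < inner ℝ x v := by
      have : ContinuousAt (fun x : V n => inner ℝ x v) v := by fun_prop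
      refine this.eventually (lt_mem_nhds ?_)
      change 0 < inner ℝ v v
      rw [real_inner_self_eq_norm_sq, hv]; norm_num
    have h0 : ∀ᶠ x in 𝓝 v, x ≠ 0 := isOpen_nz.mem_nhds hv0
    filter_upwards [h1, h0] with x hx hx0
    exact N_eq hx0 rfl hx rfl
  unfold D
  rw [hev.fderiv_eq, fderiv_id]
  unfold ContinuousLinearMap.det
  simp

lemma D_neg (hn : Even n) (f : RPn n → RPn n) (v w : V n) : D f v (-w) = -D f v w := by
  unfold D
  have h : N (QQ f) (-w) = -N (QQ f) w := by funext x; exact N_neg _ _ _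
  rw [h, fderiv_neg]
  unfold ContinuousLinearMap.det
  have h2 : ((-fderiv ℝ (N (QQ f) w) v : V n →L[ℝ] V n) : V n →ₗ[ℝ] V n) =
      (-1 : ℝ) • ((fderiv ℝ (N (QQ f) w) v : V n →L[ℝ] V n) : V n →ₗ[ℝ] V n) := by
    ext x
    simp
  rw [h2, LinearMap.det_smul, finrank_euclideanSpace_fin, (Even.add_one hn).neg_one_pow]
  ring

end

end

end Pool.Agent.Helper85.RP
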