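import Mathlib
import Pool.Agent.Helper85.RP.Lift

namespace Pool.Agent.Helper85.RP

open Filter Topology Set
open scoped Manifold ContDiff

noncomputable section

variable {n : ℕ} {k : ℕ∞}

lemma ne_of_unit {v : V n} (hv : ‖v‖ = 1) : v ≠ 0 := by rintro rfl; simp at hv

lemma D_ne (hk : 1 ≤ k) {f g : RPn n → RPn n} (hf : ContMDiff (𝓡 n) (𝓡 n) k f)
    (hg : ContMDiff (𝓡 n) (𝓡 n) k g) (hgf : g ∘ f = id) {v w : V n} (hv : ‖v‖ = 1)
    (hw : ‖w‖ = 1) (h1 : f (ph v) = ph w) : D f v w ≠ 0 := by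
  have h2 : g (ph w) = ph v := by rw [← h1]; exact congrFun hgf (ph v)
  have h3 := D_comp hk hf hg hv hw hv h1 h2
  rw [hgf, D_id hv] at h3
  intro h0
  rw [h0, mul_zero] at h3
  exact one_ne_zero h3

lemma neg_unique (hn : Even n) {f : RPn n → RPn n} {v : V n} {w w' : S n}
    (h : f (ph v) = ph w) (h' : f (ph v) = ph w') (hd : 0 < D f v w) (hd' : 0 < D f v w') :
    w = w' := by
  rcases (ph_eq_iff (S_norm w) (S_norm w')).1 (h.symm.trans h') with h1 | h1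
  · exact Subtype.ext h1
  · exfalso
    rw [h1, D_neg hn] at hd
    linarith

open Classical in
/-- the orientation preserving lift to the sphere -/
def lift (f : RPn n → RPn n) (v : S n) : S n :=
  if h : ∃ w : S n, f (ph (v : V n)) = ph (w : V n) ∧ 0 < D f v w then h.choose else v

lemma lift_eq (hn : Even n) {f : RPn n → RPn n} {v w : S n} (h : f (ph (v : V n)) = ph (w : V n))
    (hd : 0 < D f v w) : lift f v = w := by
  have hex : ∃ w : S n, f (ph (v : V n)) = ph (w : V n) ∧ 0 < D f v w := ⟨w, h, hd⟩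
  unfold lift
  rw [dif_pos hex]
  exact neg_unique hn hex.choose_spec.1 h hex.choose_spec.2 hd

lemma lift_spec (hk : 1 ≤ k) (hn : Even n) {f g : RPn n → RPn n}
    (hf : ContMDiff (𝓡 n) (𝓡 n) k f) (hg : ContMDiff (𝓡 n) (𝓡 n) k g) (hgf : g ∘ f = id)
    (v : S n) : f (ph (v : V n)) = ph (lift f v : V n) ∧ 0 < D f v (lift f v) := by
  have hex : ∃ w : S n, f (ph (v : V n)) = ph (w : V n) ∧ 0 < D f v w := by
    obtain ⟨w, hw, hwf⟩ := exists_unit (f (ph (v : V n)))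
    have hd := D_ne hk hf hg hgf (S_norm v) hw hwf.symm
    rcases lt_or_gt_of_ne hd with h | h
    · refine ⟨⟨-w, by simpa using hw⟩, ?_, ?_⟩
      · change f (ph (v : V n)) = ph (-w)
        rw [← hwf]
        have := ph_smul (ne_of_unit hw) (c := -1) (by norm_num)
        rw [neg_smul, one_smul] at this
        exact this.symm
      · change 0 < D f v (-w)
        rw [D_neg hn]
        linarith
    · exact ⟨⟨w, by simpa using hw⟩, hwf.symm, h⟩
  have h : lift f v = hex.choose := by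
    unfold lift
    rw [dif_pos hex]
  rw [h]
  exact hex.choose_spec

lemma ev_lift {f : RPn n → RPn n} (hf : ContMDiff (𝓡 n) (𝓡 n) k f) {v0 w0 : V n}
    (hv0 : ‖v0‖ = 1) (hw0 : ‖w0‖ = 1) (h1 : f (ph v0) = ph w0) :
    ∀ᶠ v in 𝓝 v0, f (ph v) = ph (N (QQ f) w0 v) ∧ ‖N (QQ f) w0 v‖ = ‖v‖ ∧
      D f v (N (QQ f) w0 v) = (fderiv ℝ (N (QQ f) w0) v).det := by
  have ha : act (ι (QQ f v0)) w0 ≠ 0 := by
    rw [act_unit (Q := QQ f) hw0 h1]; exact ne_of_unit hw0
  filter_upwards [ev_ok hf (ne_of_unit hv0) ha] with v hv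
  obtain ⟨p1, p2⟩ := N_props (Q := QQ f) hv.1 hv.2
  refine ⟨p1.symm, p2, ?_⟩
  have hcont : ContinuousAt (N (QQ f) w0) v :=
    (N_contDiffAt hv.1 hv.2 (QQ_contDiffAt hf hv.1)).continuousAt
  have hev : N (QQ f) (N (QQ f) w0 v) =ᶠ[𝓝 v] N (QQ f) w0 := by
    have h2 : ∀ᶠ x in 𝓝 v, 0 < inner ℝ (N (QQ f) w0 x) (N (QQ f) w0 v) := by
      have h3 : ContinuousAt (fun x => inner ℝ (N (QQ f) w0 x) (N (QQ f) w0 v)) v :=
        hcont.inner continuousAt_const
      refine h3.eventually (lt_mem_nhds ?_)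
      change 0 < inner ℝ (N (QQ f) w0 v) (N (QQ f) w0 v)
      rw [real_inner_self_eq_norm_sq, p2]
      have := norm_pos_iff.2 hv.1
      positivity
    filter_upwards [h2, ev_ok hf hv.1 hv.2] with x hx hx'
    obtain ⟨q1, q2⟩ := N_props (Q := QQ f) hx'.1 hx'.2
    refine N_eq ?_ q1.symm hx q2
    rw [← norm_ne_zero_iff, q2]
    exact norm_ne_zero_iff.2 hx'.1
  unfold D
  rw [hev.fderiv_eq]

lemma ev_pos (hk : 1 ≤ k) {f : RPn n → RPn n} (hf : ContMDiff (𝓡 n) (𝓡 n) k f) {v0 w0 : V n}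
    (hv0 : ‖v0‖ = 1) (hw0 : ‖w0‖ = 1) (h1 : f (ph v0) = ph w0) (hd : 0 < D f v0 w0) :
    ∀ᶠ v in 𝓝 v0, 0 < (fderiv ℝ (N (QQ f) w0) v).det := by
  have ha : act (ι (QQ f v0)) w0 ≠ 0 := by
    rw [act_unit (Q := QQ f) hw0 h1]; exact ne_of_unit hw0
  have h2 : ContDiffAt ℝ 1 (N (QQ f) w0) v0 :=
    (N_contDiffAt (ne_of_unit hv0) ha (QQ_contDiffAt hf (ne_of_unit hv0))).of_le
      (by exact_mod_cast hk)
  have h3 : ContinuousAt (fderiv ℝ (N (QQ f) w0)) v0 :=
    (h2.fderiv_right (m := 0) (by norm_num)).continuousAt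
  have h4 : ContinuousAt (fun v => (fderiv ℝ (N (QQ f) w0) v).det) v0 :=
    ContinuousLinearMap.continuous_det.continuousAt.comp h3
  exact h4.eventually (lt_mem_nhds hd)

lemma lift_near (hk : 1 ≤ k) (hn : Even n) {f g : RPn n → RPn n}
    (hf : ContMDiff (𝓡 n) (𝓡 n) k f) (hg : ContMDiff (𝓡 n) (𝓡 n) k g) (hgf : g ∘ f = id)
    (v0 : S n) : ∀ᶠ v : S n in 𝓝 v0, (lift f v : V n) = N (QQ f) (lift f v0) v := by
  obtain ⟨h1, h2⟩ := lift_spec hk hn hf hg hgf v0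
  have e1 := ev_lift hf (S_norm v0) (S_norm (lift f v0)) h1
  have e2 := ev_pos hk hf (S_norm v0) (S_norm (lift f v0)) h1 h2
  have e3 : Tendsto (fun v : S n => (v : V n)) (𝓝 v0) (𝓝 (v0 : V n)) :=
    continuous_subtype_val.continuousAt
  filter_upwards [e3.eventually (e1.and e2)] with v hv
  obtain ⟨⟨p1, p2, p3⟩, p4⟩ := hv
  have hu : N (QQ f) (lift f v0) v ∈ Metric.sphere (0 : V n) 1 := by
    rw [mem_sphere_zero_iff_norm, p2, S_norm]
  have := lift_eq hn (f := f) (v := v) (w := ⟨N (QQ f) (lift f v0) v, hu⟩) p1 (by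
    change 0 < D f v (N (QQ f) (lift f v0) v)
    rw [p3]; exact p4)
  rw [this]

lemma lift_contMDiff (hk : 1 ≤ k) (hn : Even n) {f g : RPn n → RPn n}
    (hf : ContMDiff (𝓡 n) (𝓡 n) k f) (hg : ContMDiff (𝓡 n) (𝓡 n) k g) (hgf : g ∘ f = id) :
    ContMDiff (𝓡 n) (𝓡 n) k (lift f) := by
  have hfact : Fact (Module.finrank ℝ (V n) = n + 1) := ⟨finrank_euclideanSpace_fin⟩
  have h1 : ContMDiff (𝓡 n) 𝓘(ℝ, V n) k (fun v : S n => (lift f v : V n)) := by
    intro v0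
    obtain ⟨p1, p2⟩ := lift_spec hk hn hf hg hgf v0
    have ha : act (ι (QQ f v0)) (lift f v0) ≠ 0 := by
      rw [act_unit (Q := QQ f) (S_norm _) p1]; exact S_ne _
    have h2 : ContMDiffAt (𝓡 n) 𝓘(ℝ, V n) k (fun v : S n => N (QQ f) (lift f v0) (v : V n)) v0 :=
      (N_contDiffAt (S_ne v0) ha (QQ_contDiffAt hf (S_ne v0))).contMDiffAt.comp v0
        (contMDiff_coe_sphere (n := n)).contMDiffAt
    exact h2.congr_of_eventuallyEq (lift_near hk hn hf hg hgf v0)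
  exact h1.codRestrict_sphere (n := n) fun v => (lift f v).2

lemma lift_id (hn : Even n) (v : S n) : lift id v = v :=
  lift_eq hn rfl (by rw [D_id (S_norm v)]; norm_num)

lemma lift_comp (hk : 1 ≤ k) (hn : Even n) {f f' g g' : RPn n → RPn n}
    (hf : ContMDiff (𝓡 n) (𝓡 n) k f) (hf' : ContMDiff (𝓡 n) (𝓡 n) k f') (hff : f' ∘ f = id)
    (hg : ContMDiff (𝓡 n) (𝓡 n) k g) (hg' : ContMDiff (𝓡 n) (𝓡 n) k g') (hgg : g' ∘ g = id)
    (v : S n) : lift (g ∘ f) v = lift g (lift f v) := by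
  obtain ⟨p1, p2⟩ := lift_spec hk hn hf hf' hff v
  obtain ⟨q1, q2⟩ := lift_spec hk hn hg hg' hgg (lift f v)
  refine lift_eq hn ?_ ?_
  · change g (f (ph (v : V n))) = _
    rw [p1, q1]
  · rw [D_comp hk hf hg (S_norm _) (S_norm _) (S_norm _) p1 q1]
    exact mul_pos q2 p2

/-- A group acting on projective space of even dimension acts on the sphere. -/
theorem exists_action (hk : 1 ≤ k) (hn : Even n) {G : Type} [Group G]
    (ρ : G →* Equiv.Perm (RPn n)) (hρ : Function.Injective ρ)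
    (hs : ∀ g, ContMDiff (𝓡 n) (𝓡 n) k (ρ g)) :
    ∃ ρ' : G →* Equiv.Perm (S n), Function.Injective ρ' ∧
      ∀ g, ContMDiff (𝓡 n) (𝓡 n) k (ρ' g) := by
  have hinv : ∀ g : G, (ρ g⁻¹ : RPn n → RPn n) ∘ (ρ g : RPn n → RPn n) = id := by
    intro g
    funext x
    change (ρ g⁻¹ * ρ g) x = x
    rw [← map_mul]; simp
  let φ : G →* Function.End (S n) :=
    { toFun := fun g => lift (ρ g)
      map_one' := by
        funext v
        change lift (ρ 1) v = v
        rw [map_one]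
        exact lift_id hn v
      map_mul' := fun g h => by
        funext v
        change lift (ρ (g * h)) v = lift (ρ g) (lift (ρ h) v)
        rw [map_mul]
        exact lift_comp hk hn (hs h) (hs h⁻¹) (hinv h) (hs g) (hs g⁻¹) (hinv g) v }
  have hφ : ∀ g, ((φ.toHomPerm g : Equiv.Perm (S n)) : S n → S n) = lift (ρ g) := fun g => rfl
  refine ⟨φ.toHomPerm, ?_, fun g => ?_⟩
  · intro g h hgh
    apply hρ
    ext P : 1
    obtain ⟨v, hv, rfl⟩ := exists_unit P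
    have h1 := (lift_spec hk hn (hs g) (hs g⁻¹) (hinv g) ⟨v, by simpa using hv⟩).1
    have h2 := (lift_spec hk hn (hs h) (hs h⁻¹) (hinv h) ⟨v, by simpa using hv⟩).1
    have h3 : lift (ρ g) ⟨v, by simpa using hv⟩ = lift (ρ h) ⟨v, by simpa using hv⟩ := by
      rw [← hφ g, ← hφ h, hgh]
    rw [h3] at h1
    exact h1.trans h2.symm
  · rw [hφ g]
    exact lift_contMDiff hk hn (hs g) (hs g⁻¹) (hinv g)

end

end Pool.Agent.Helper85.RP
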