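import Mathlib
import Pool.Agent.Helper85.RP.Act

namespace Pool.Agent.Helper85.RP

open Filter Topology Set
open scoped Manifold ContDiff

noncomputable section

variable {n : ℕ} {k : ℕ∞}

/-- homogeneous extension of a map to the sphere -/
def ψ (d : RPn n → S n) (v : V n) : V n := ‖v‖ • (d (ph v) : V n)

lemma ψ_contDiffAt {d : RPn n → S n} (hd : ContMDiff (𝓡 n) (𝓡 n) k d) {v : V n} (hv : v ≠ 0) :
    ContDiffAt ℝ k (ψ d) v := by
  have hfact : Fact (Module.finrank ℝ (V n) = n + 1) := ⟨finrank_euclideanSpace_fin⟩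
  have h1 : ContMDiffAt 𝓘(ℝ, V n) 𝓘(ℝ, V n) k (fun v => (d (ph v) : V n)) v :=
    (contMDiff_coe_sphere (n := n)).contMDiffAt.comp v
      (hd.contMDiffAt.comp v (contMDiffAt_ph k hv))
  exact (contDiffAt_norm ℝ hv).smul (contMDiffAt_iff_contDiffAt.1 h1)

lemma ψ_norm (d : RPn n → S n) (v : V n) : ‖ψ d v‖ = ‖v‖ := by
  unfold ψ
  rw [norm_smul, norm_norm, S_norm, mul_one]

lemma ψ_det_ne (hk : 1 ≤ k) {d : RPn n → S n} {d' : S n → RPn n}
    (hd : ContMDiff (𝓡 n) (𝓡 n) k d) (hd' : ContMDiff (𝓡 n) (𝓡 n) k d')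
    (hdd : ∀ P, d' (d P) = P) {v : V n} (hv : ‖v‖ = 1) : (fderiv ℝ (ψ d) v).det ≠ 0 := by
  have hv0 : v ≠ 0 := ne_of_unit hv
  have hk' : (k : ℕ∞ω) ≠ 0 := by
    intro h0
    rw [show k = 0 by exact_mod_cast h0] at hk
    exact absurd hk (by norm_num)
  have hψ : ∀ x : V n, x ≠ 0 → d' (rad (ψ d x)) = ph x := by
    intro x hx
    have h0 : ψ d x ≠ 0 := by rw [← norm_ne_zero_iff, ψ_norm]; exact norm_ne_zero_iff.2 hx
    have h1 : rad (ψ d x) = d (ph x) := by
      apply Subtype.ext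
      rw [rad_coe h0, ψ_norm]
      unfold ψ
      rw [smul_smul, inv_mul_cancel₀ (norm_ne_zero_iff.2 hx), one_smul]
    rw [h1, hdd]
  have hψ0 : ψ d v ≠ 0 := by rw [← norm_ne_zero_iff, ψ_norm]; exact norm_ne_zero_iff.2 hv0
  have ha : act (ι (d' (rad (ψ d v)))) v ≠ 0 := by
    rw [act_unit (Q := fun y => d' (rad y)) (v := ψ d v) hv (hψ v hv0)]; exact hv0
  have hQ : ContDiffAt ℝ k (fun y => ι (d' (rad y))) (ψ d v) := by
    have h1 : ContMDiffAt 𝓘(ℝ, V n) 𝓘(ℝ, Mat n) k (fun y => ι (d' (rad y))) (ψ d v) :=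
      (contMDiff_ι k).contMDiffAt.comp _ (hd'.contMDiffAt.comp _ (contMDiffAt_rad k hψ0))
    exact contMDiffAt_iff_contDiffAt.1 h1
  have hev : N (fun y => d' (rad y)) v ∘ ψ d =ᶠ[𝓝 v] id := by
    have h1 : ∀ᶠ x in 𝓝 v, 0 < inner ℝ x v := by
      have : ContinuousAt (fun x : V n => inner ℝ x v) v := by fun_prop
      refine this.eventually (lt_mem_nhds ?_)
      change 0 < inner ℝ v v
      rw [real_inner_self_eq_norm_sq, hv]; norm_num
    have h0 : ∀ᶠ x in 𝓝 v, x ≠ 0 := isOpen_nz.mem_nhds hv0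
    filter_upwards [h1, h0] with x hx hx0
    exact N_eq hx0 (hψ x hx0) hx (ψ_norm d x).symm
  have d1 : DifferentiableAt ℝ (ψ d) v := (ψ_contDiffAt hd hv0).differentiableAt hk'
  have d2 : DifferentiableAt ℝ (N (fun y => d' (rad y)) v) (ψ d v) :=
    (N_contDiffAt hψ0 ha hQ).differentiableAt hk'
  have h3 : ((fderiv ℝ (N (fun y => d' (rad y)) v) (ψ d v)).comp (fderiv ℝ (ψ d) v)).det = 1 := by
    rw [← fderiv_comp v d2 d1, hev.fderiv_eq, fderiv_id]
    unfold ContinuousLinearMap.det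
    simp
  rw [det_comp'] at h3
  intro h0
  rw [h0, mul_zero] at h3
  exact zero_ne_one h3

lemma ψ_neg_det (hn : Even n) {d : RPn n → S n}
    {v : V n} (hdiff : DifferentiableAt ℝ (ψ d) (-v)) :
    (fderiv ℝ (ψ d) v).det = -(fderiv ℝ (ψ d) (-v)).det := by
  have h1 : ψ d = ψ d ∘ (fun x => -x) := by
    funext x
    change ψ d x = ψ d (-x)
    unfold ψ
    rcases eq_or_ne x 0 with rfl | hx
    · simp
    · have := ph_smul hx (c := -1) (by norm_num)
      rw [neg_smul, one_smul] at this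
      rw [this, norm_neg]
  have h2 : fderiv ℝ (ψ d) v = (fderiv ℝ (ψ d) (-v)).comp (fderiv ℝ (fun x : V n => -x) v) := by
    conv_lhs => rw [h1]
    exact fderiv_comp v hdiff (by fun_prop)
  have h3 : (fderiv ℝ (fun x : V n => -x) v).det = -1 := by
    have h4 : fderiv ℝ (fun x : V n => -x) v = -ContinuousLinearMap.id ℝ (V n) := by
      rw [fderiv_fun_neg]
      simp
    rw [h4]
    unfold ContinuousLinearMap.det
    have h5 : ((-ContinuousLinearMap.id ℝ (V n) : V n →L[ℝ] V n) : V n →ₗ[ℝ] V n) =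
        (-1 : ℝ) • (LinearMap.id : V n →ₗ[ℝ] V n) := by
      ext x
      simp
    rw [h5, LinearMap.det_smul, finrank_euclideanSpace_fin, (Even.add_one hn).neg_one_pow]
    simp
  rw [h2, det_comp', h3]
  ring

theorem not_diffeo (hk : 1 ≤ k) (hn : Even n) (hn0 : 0 < n) :
    IsEmpty (Diffeomorph (𝓡 n) (𝓡 n) (RPn n) (S n) k) := by
  refine ⟨fun e => ?_⟩
  have hd : ContMDiff (𝓡 n) (𝓡 n) k (e : RPn n → S n) := e.contMDiff_toFun
  have hd' : ContMDiff (𝓡 n) (𝓡 n) k (e.symm : S n → RPn n) := e.contMDiff_invFun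
  have hdd : ∀ P, e.symm (e P) = P := fun P => e.symm_apply_apply P
  have hk' : (k : ℕ∞ω) ≠ 0 := by
    intro h0
    rw [show k = 0 by exact_mod_cast h0] at hk
    exact absurd hk (by norm_num)
  have hcont : ContinuousOn (fun v => (fderiv ℝ (ψ e) v).det) (Metric.sphere (0 : V n) 1) := by
    intro v hv
    have hv1 : ‖v‖ = 1 := by simpa using hv
    have h2 : ContDiffAt ℝ 1 (ψ e) v :=
      (ψ_contDiffAt hd (ne_of_unit hv1)).of_le (by exact_mod_cast hk)
    have h3 : ContinuousAt (fderiv ℝ (ψ e)) v :=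
      (h2.fderiv_right (m := 0) (by norm_num)).continuousAt
    exact (ContinuousLinearMap.continuous_det.continuousAt.comp h3).continuousWithinAt
  have hconn : IsPreconnected (Metric.sphere (0 : V n) 1) :=
    (isConnected_sphere (rank_V (by omega)) 0 zero_le_one).isPreconnected
  obtain ⟨v, hv⟩ : ∃ v : V n, ‖v‖ = 1 := by
    obtain ⟨v, hv, -⟩ := exists_unit (ph (0 : V n))
    exact ⟨v, hv⟩
  have hvm : v ∈ Metric.sphere (0 : V n) 1 := by simpa using hv
  have hvm' : -v ∈ Metric.sphere (0 : V n) 1 := by simpa using hv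
  have hneg := ψ_neg_det hn (d := e) (v := v)
    ((ψ_contDiffAt hd (ne_of_unit (by rwa [norm_neg]))).differentiableAt hk')
  have h1 := ψ_det_ne hk hd hd' hdd hv
  have himg : IsPreconnected ((fun v => (fderiv ℝ (ψ e) v).det) '' Metric.sphere (0 : V n) 1) :=
    hconn.image _ hcont
  have hord := himg.ordConnected
  have m1 : (fderiv ℝ (ψ e) v).det ∈
      (fun v => (fderiv ℝ (ψ e) v).det) '' Metric.sphere (0 : V n) 1 := ⟨v, hvm, rfl⟩
  have m2 : (fderiv ℝ (ψ e) (-v)).det ∈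
      (fun v => (fderiv ℝ (ψ e) v).det) '' Metric.sphere (0 : V n) 1 := ⟨-v, hvm', rfl⟩
  have h0 : (0 : ℝ) ∈ (fun v => (fderiv ℝ (ψ e) v).det) '' Metric.sphere (0 : V n) 1 := by
    rcases lt_or_gt_of_ne h1 with h | h
    · exact hord.out m1 m2 ⟨h.le, by linarith⟩
    · exact hord.out m2 m1 ⟨by linarith, h.le⟩
  obtain ⟨w, hw, hw0⟩ := h0
  exact ψ_det_ne hk hd hd' hdd (by simpa using hw) hw0

end

end Pool.Agent.Helper85.RP
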